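import Pool.Agent.D0H61.AB.Stm

set_option autoImplicit false

/-!
# Project AB, module NEAR: the gcd sum over numbers with few large prime factors of high multiplicity
-/

namespace Pool.Agent.D0H62.AB

open Finset

/-- distance of exponents -/
def dd (a b : ℕ) : ℕ := max a b - min a b

theorem geo_le {x : ℝ} (h0 : 0 ≤ x) (h1 : x ≤ 1 / 2) (M : ℕ) : ∑ j ∈ range M, x ^ j ≤ 1 + 2 * x := by
  have h := mul_neg_geom_sum x M
  have h2 : 0 ≤ x ^ M := by positivity
  by_contra hc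
  push Not at hc
  nlinarith

theorem sum1 {x : ℝ} (h0 : 0 ≤ x) (h1 : x ≤ 1 / 2) (e M : ℕ) :
    ∑ j ∈ range M, x ^ dd e j ≤ 1 + 4 * x := by
  have hsub : range M ⊆ range (e + M) := range_subset_range.2 (by omega)
  refine (sum_le_sum_of_subset_of_nonneg hsub fun _ _ _ => by positivity).trans ?_
  rw [sum_range_add]
  have e1 : ∑ j ∈ range M, x ^ dd e (e + j) = ∑ j ∈ range M, x ^ j := by
    refine sum_congr rfl fun j _ => ?_
    have : dd e (e + j) = j := by unfold dd; omega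
    rw [this]
  have e2 : ∑ j ∈ range e, x ^ dd e j = x * ∑ j ∈ range e, x ^ j := by
    rw [← sum_range_reflect, mul_sum]
    refine sum_congr rfl fun j hj => ?_
    have hj' := mem_range.1 hj
    have : dd e (e - 1 - j) = j + 1 := by unfold dd; omega
    rw [this, pow_succ]
    ring
  rw [e1, e2]
  have h3 := geo_le h0 h1 M
  have h4 := geo_le h0 h1 e
  nlinarith

theorem sum2 {x : ℝ} (h0 : 0 ≤ x) (h1 : x ≤ 1 / 2) (M : ℕ) (A : Finset ℕ) (hA : A ⊆ range M)
    (hA' : ∀ j ∈ A, j = 0 ∨ 8 ≤ j) : ∑ j ∈ A, x ^ dd 0 j ≤ 1 + 2 * x ^ 8 := by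
  classical
  have hsub : A ⊆ insert 0 ((range M).image fun j => 8 + j) := by
    intro j hj
    rcases hA' j hj with h | h
    · rw [h]; exact mem_insert_self _ _
    · refine mem_insert_of_mem (mem_image.2 ⟨j - 8, mem_range.2 ?_, by omega⟩)
      have := mem_range.1 (hA hj)
      omega
  refine (sum_le_sum_of_subset_of_nonneg hsub fun _ _ _ => by positivity).trans ?_
  rw [sum_insert (by simp), sum_image (by intro a _ b _ h; simpa using h)]
  have e0 : dd 0 0 = 0 := rfl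
  rw [e0, pow_zero]
  have e1 : ∑ j ∈ range M, x ^ dd 0 (8 + j) = x ^ 8 * ∑ j ∈ range M, x ^ j := by
    rw [mul_sum]
    refine sum_congr rfl fun j _ => ?_
    have : dd 0 (8 + j) = 8 + j := by unfold dd; omega
    rw [this, pow_add]
  rw [e1]
  have h3 := geo_le h0 h1 M
  have h4 : 0 ≤ x ^ 8 := by positivity
  nlinarith

theorem prod_fact (S : Finset ℕ) (m : ℕ) (hm : m ≠ 0) (h : m.primeFactors ⊆ S) :
    ∏ p ∈ S, p ^ m.factorization p = m := by
  calc ∏ p ∈ S, p ^ m.factorization p = ∏ p ∈ m.primeFactors, p ^ m.factorization p := by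
        refine (prod_subset h fun p _ hp => ?_).symm
        rw [Finsupp.notMem_support_iff.1 (by rwa [Nat.support_factorization]), pow_zero]
    _ = m := Nat.prod_factorization_pow_eq_self hm

theorem gcd_id (S : Finset ℕ) (a c : ℕ) (ha : a ≠ 0) (hc : c ≠ 0) (h : a.primeFactors ⊆ S)
    (h' : c.primeFactors ⊆ S) :
    (Nat.gcd a c) ^ 2 * ∏ p ∈ S, p ^ dd (a.factorization p) (c.factorization p) = a * c := by
  have hg : Nat.gcd a c ≠ 0 := Nat.gcd_ne_zero_left ha
  have h3 : (Nat.gcd a c).primeFactors ⊆ S :=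
    (Nat.primeFactors_mono (Nat.gcd_dvd_left a c) ha).trans h
  conv_rhs => rw [← prod_fact S a ha h, ← prod_fact S c hc h', ← prod_mul_distrib]
  conv_lhs => rw [← prod_fact S _ hg h3, ← prod_pow, ← prod_mul_distrib]
  refine prod_congr rfl fun p _ => ?_
  rw [Nat.factorization_gcd ha hc, Finsupp.inf_apply, ← pow_mul, ← pow_add, ← pow_add]
  congr 1
  have hmin : ∀ x y : ℕ, (x ⊓ y) * 2 + dd x y = x + y := by
    intro x y
    have : x ⊓ y = min x y := rfl
    unfold dd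
    omega
  exact hmin _ _

theorem term_le (S : Finset ℕ) (hS : ∀ p ∈ S, p.Prime) (a c : ℕ) (ha : a ≠ 0) (hc : c ≠ 0)
    (h : a.primeFactors ⊆ S) (h' : c.primeFactors ⊆ S) :
    (Nat.gcd a c : ℝ) / (max a c : ℕ) ≤
      ∏ p ∈ S, ((Real.sqrt p)⁻¹) ^ dd (a.factorization p) (c.factorization p) := by
  have hid := gcd_id S a c ha hc h h'
  set D : ℕ := ∏ p ∈ S, p ^ dd (a.factorization p) (c.factorization p) with hD
  have hDpos : 0 < D := prod_pos fun p hp => pow_pos (hS p hp).pos _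
  have ha' : (0 : ℝ) < a := by exact_mod_cast Nat.pos_of_ne_zero ha
  have hc' : (0 : ℝ) < c := by exact_mod_cast Nat.pos_of_ne_zero hc
  have hD' : (0 : ℝ) < D := by exact_mod_cast hDpos
  have hsq : (∏ p ∈ S, ((Real.sqrt p)⁻¹) ^ dd (a.factorization p) (c.factorization p)) ^ 2 = (D : ℝ)⁻¹ := by
    rw [← prod_pow, hD]
    push_cast
    rw [← prod_inv_distrib]
    refine prod_congr rfl fun p _ => ?_
    rw [← pow_mul, mul_comm _ 2, pow_mul, inv_pow, Real.sq_sqrt (Nat.cast_nonneg p), inv_pow]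
  have hmax : (0 : ℝ) < ((max a c : ℕ) : ℝ) := by
    have : 0 < max a c := lt_max_of_lt_left (Nat.pos_of_ne_zero ha)
    exact_mod_cast this
  have hm1 : (a : ℝ) ≤ ((max a c : ℕ) : ℝ) := by exact_mod_cast le_max_left a c
  have hm2 : (c : ℝ) ≤ ((max a c : ℕ) : ℝ) := by exact_mod_cast le_max_right a c
  have hid' : (Nat.gcd a c : ℝ) ^ 2 * D = a * c := by exact_mod_cast hid
  refine (pow_le_pow_iff_left₀ (by positivity) (prod_nonneg fun _ _ => by positivity) two_ne_zero).1 ?_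
  rw [hsq, div_pow, div_le_iff₀ (by positivity), inv_mul_eq_div, le_div_iff₀ hD', hid']
  nlinarith

theorem near (l : ℕ) (hl : 2 ≤ l) (n : ℕ) (B : Finset ℕ)
    (hB : ∀ b ∈ B, 0 < b ∧ b.primeFactors.card ≤ n ∧
      (∀ p ∈ b.primeFactors, Real.exp l < p ∧ 8 ≤ b.factorization p)) (b : ℕ) (hb : b ∈ B) :
    ∑ b' ∈ B, (Nat.gcd b b' : ℝ) / (max b b' : ℕ) ≤ Real.exp (8 * n * Real.exp (-(l : ℝ) / 2) + 8) := by
  classical
  set S : Finset ℕ := B.biUnion Nat.primeFactors with hSdef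
  have hSpf : ∀ c ∈ B, c.primeFactors ⊆ S := fun c hc => subset_biUnion_of_mem Nat.primeFactors hc
  have hSp : ∀ p ∈ S, p.Prime := by
    intro p hp
    obtain ⟨c, _, hc⟩ := mem_biUnion.1 hp
    exact Nat.prime_of_mem_primeFactors hc
  have hSl : ∀ p ∈ S, Real.exp l < p := by
    intro p hp
    obtain ⟨c, hc, hpc⟩ := mem_biUnion.1 hp
    exact ((hB c hc).2.2 p hpc).1
  -- bounds for the weights
  have hx : ∀ p ∈ S, (Real.sqrt p)⁻¹ ≤ Real.exp (-(l : ℝ) / 2) := by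
    intro p hp
    have h1 : Real.exp ((l : ℝ) / 2) ≤ Real.sqrt p := by
      refine Real.le_sqrt_of_sq_le ?_
      rw [← Real.exp_nat_mul]
      have : ((2 : ℕ) : ℝ) * ((l : ℝ) / 2) = l := by push_cast; ring
      rw [this]
      exact (hSl p hp).le
    rw [show -(l : ℝ) / 2 = -((l : ℝ) / 2) by ring, Real.exp_neg]
    exact inv_anti₀ (Real.exp_pos _) h1
  have hx0 : ∀ p : ℕ, 0 ≤ (Real.sqrt p)⁻¹ := fun p => by positivity
  have hx2 : ∀ p ∈ S, (Real.sqrt p)⁻¹ ≤ 1 / 2 := by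
    intro p hp
    have h1 : (2 : ℝ) ≤ Real.sqrt p := by
      refine Real.le_sqrt_of_sq_le ?_
      have h2 : Real.exp 1 ^ 2 ≤ Real.exp l := by
        rw [← Real.exp_nat_mul]
        apply Real.exp_le_exp.2
        push_cast
        have : (2 : ℝ) ≤ l := by exact_mod_cast hl
        linarith
      have h3 := Real.exp_one_gt_d9
      have h4 := hSl p hp
      nlinarith
    rw [one_div]
    exact inv_anti₀ (by norm_num) h1
  set M : ℕ := B.sup id + 1 with hM
  have hMb : ∀ c ∈ B, ∀ p, c.factorization p < M := by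
    intro c hc p
    have h1 : c.factorization p < c := Nat.factorization_lt p (hB c hc).1.ne'
    have h2 : c ≤ B.sup id := le_sup (f := id) hc
    omega
  let A : {p // p ∈ S} → Finset ℕ := fun i =>
    (range M).filter fun e => (i : ℕ) ∈ b.primeFactors ∨ e = 0 ∨ 8 ≤ e
  let f : {p // p ∈ S} → ℕ → ℝ := fun i e => ((Real.sqrt (i : ℕ))⁻¹) ^ dd (b.factorization i) e
  let Φ : ℕ → ({p // p ∈ S} → ℕ) := fun c i => c.factorization i
  have hf0 : ∀ i e, 0 ≤ f i e := fun i e => pow_nonneg (hx0 _) _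
  have hinj : Set.InjOn Φ B := by
    intro c hc c' hc' h
    have hc0 : c ≠ 0 := (hB c hc).1.ne'
    have hc0' : c' ≠ 0 := (hB c' hc').1.ne'
    rw [← prod_fact S c hc0 (hSpf c hc), ← prod_fact S c' hc0' (hSpf c' hc')]
    refine prod_congr rfl fun p hp => ?_
    have := congrFun h ⟨p, hp⟩
    simp only [Φ] at this
    rw [this]
  have hmem : ∀ c ∈ B, Φ c ∈ Fintype.piFinset A := by
    intro c hc
    rw [Fintype.mem_piFinset]
    intro i
    refine mem_filter.2 ⟨mem_range.2 (hMb c hc i), ?_⟩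
    by_cases hi : (i : ℕ) ∈ c.primeFactors
    · exact Or.inr (Or.inr ((hB c hc).2.2 i hi).2)
    · exact Or.inr (Or.inl (Nat.factorization_eq_zero_of_not_dvd
        fun h => hi (Nat.mem_primeFactors.2 ⟨hSp i i.2, h, (hB c hc).1.ne'⟩)))
  have hsum : ∑ b' ∈ B, (Nat.gcd b b' : ℝ) / (max b b' : ℕ) ≤ ∏ i, ∑ e ∈ A i, f i e := by
    rw [prod_univ_sum]
    calc ∑ b' ∈ B, (Nat.gcd b b' : ℝ) / (max b b' : ℕ) ≤ ∑ b' ∈ B, ∏ i, f i (Φ b' i) := by
          refine sum_le_sum fun c hc => ?_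
          refine (term_le S hSp b c (hB b hb).1.ne' (hB c hc).1.ne' (hSpf b hb) (hSpf c hc)).trans
            (le_of_eq ?_)
          exact (prod_coe_sort S fun p : ℕ =>
            ((Real.sqrt p)⁻¹) ^ dd (b.factorization p) (c.factorization p)).symm
      _ = ∑ φ ∈ B.image Φ, ∏ i, f i (φ i) := (sum_image (f := fun φ : {p // p ∈ S} → ℕ => ∏ i, f i (φ i))
          (fun c hc c' hc' h => hinj hc hc' h)).symm
      _ ≤ ∑ φ ∈ Fintype.piFinset A, ∏ i, f i (φ i) := by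
          refine sum_le_sum_of_subset_of_nonneg ?_ fun φ _ _ => prod_nonneg fun i _ => hf0 i _
          intro φ hφ
          obtain ⟨c, hc, rfl⟩ := mem_image.1 hφ
          exact hmem c hc
  refine hsum.trans ?_
  have hfac : ∀ i : {p // p ∈ S}, ∑ e ∈ A i, f i e ≤
      Real.exp ((if (i : ℕ) ∈ b.primeFactors then 4 * Real.exp (-(l : ℝ) / 2) else 0) +
        2 * (((i : ℕ) : ℝ) ^ 2)⁻¹) := by
    intro i
    have hi0 : (0 : ℝ) < ((i : ℕ) : ℝ) := by exact_mod_cast (hSp i i.2).pos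
    have hi1 : (1 : ℝ) ≤ ((i : ℕ) : ℝ) := by exact_mod_cast (hSp i i.2).one_le
    by_cases hi : (i : ℕ) ∈ b.primeFactors
    · rw [if_pos hi]
      have h1 : ∑ e ∈ A i, f i e ≤ ∑ e ∈ range M, f i e :=
        sum_le_sum_of_subset_of_nonneg (filter_subset _ _) fun _ _ _ => hf0 i _
      have h2 : ∑ e ∈ range M, f i e ≤ 1 + 4 * (Real.sqrt (i : ℕ))⁻¹ :=
        sum1 (hx0 _) (hx2 i i.2) _ M
      have h3 := hx i i.2
      have h4 : 0 ≤ 2 * (((i : ℕ) : ℝ) ^ 2)⁻¹ := by positivity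
      have h5 := Real.add_one_le_exp (4 * Real.exp (-(l : ℝ) / 2) + 2 * (((i : ℕ) : ℝ) ^ 2)⁻¹)
      linarith
    · rw [if_neg hi]
      have hb0 : b.factorization i = 0 := Nat.factorization_eq_zero_of_not_dvd
        fun h => hi (Nat.mem_primeFactors.2 ⟨hSp i i.2, h, (hB b hb).1.ne'⟩)
      have h2 : ∑ e ∈ A i, f i e ≤ 1 + 2 * ((Real.sqrt (i : ℕ))⁻¹) ^ 8 := by
        have := sum2 (hx0 i) (hx2 i i.2) M (A i) (filter_subset _ _) (fun j hj => by
          have := (mem_filter.1 hj).2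
          tauto)
        refine le_trans (le_of_eq ?_) this
        refine sum_congr rfl fun e _ => ?_
        simp only [f]
        rw [hb0]
      have h3 : ((Real.sqrt (i : ℕ))⁻¹) ^ 8 ≤ (((i : ℕ) : ℝ) ^ 2)⁻¹ := by
        have e1 : ((Real.sqrt (i : ℕ))⁻¹) ^ 8 = ((((i : ℕ) : ℝ)) ^ 4)⁻¹ := by
          rw [inv_pow, show (8 : ℕ) = 2 * 4 from rfl, pow_mul, Real.sq_sqrt hi0.le]
        rw [e1]
        exact inv_anti₀ (by positivity) (pow_le_pow_right₀ hi1 (by norm_num))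
      have h5 := Real.add_one_le_exp (0 + 2 * (((i : ℕ) : ℝ) ^ 2)⁻¹)
      linarith
  refine (prod_le_prod (fun i _ => sum_nonneg fun e _ => hf0 i e) fun i _ => hfac i).trans ?_
  rw [← Real.exp_sum]
  apply Real.exp_le_exp.2
  rw [sum_coe_sort S (fun p : ℕ => (if p ∈ b.primeFactors then 4 * Real.exp (-(l : ℝ) / 2) else 0) +
        2 * ((p : ℝ) ^ 2)⁻¹), sum_add_distrib]
  have hA1 : ∑ p ∈ S, (if p ∈ b.primeFactors then 4 * Real.exp (-(l : ℝ) / 2) else 0) ≤
      n * (4 * Real.exp (-(l : ℝ) / 2)) := by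
    rw [← sum_filter, sum_const, nsmul_eq_mul]
    refine mul_le_mul_of_nonneg_right ?_ (by positivity)
    have h1 : (S.filter fun p => p ∈ b.primeFactors) ⊆ b.primeFactors := fun p hp => (mem_filter.1 hp).2
    exact_mod_cast (card_le_card h1).trans (hB b hb).2.1
  have hA2 : ∑ p ∈ S, 2 * ((p : ℝ) ^ 2)⁻¹ ≤ 4 := by
    rw [← mul_sum]
    have h1 : S ⊆ Ioo 0 (S.sup id + 1) := by
      intro p hp
      rw [mem_Ioo]
      have h2 : p ≤ S.sup id := le_sup (f := id) hp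
      exact ⟨(hSp p hp).pos, by omega⟩
    have h2 : ∑ p ∈ S, ((p : ℝ) ^ 2)⁻¹ ≤ ∑ p ∈ Ioo 0 (S.sup id + 1), ((p : ℝ) ^ 2)⁻¹ :=
      sum_le_sum_of_subset_of_nonneg h1 fun _ _ _ => by positivity
    have h3 := sum_Ioo_inv_sq_le (α := ℝ) 0 (S.sup id + 1)
    norm_num at h3
    linarith
  have hn : (0 : ℝ) ≤ n * Real.exp (-(l : ℝ) / 2) := by positivity
  nlinarith

theorem t_NEAR : Pool.Agent.D0H61.AB.S_NEAR :=
  ⟨2, fun l hl n B hB b hb => near l hl n B hB b hb⟩

end Pool.Agent.D0H62.AB
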